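import Pool.Agent.Work.MP_bf98aa_gt.Mf.Bridge

/-!
On a closed manifold, a symplectic form of small distortion that is cohomologous to a form close to
a multiple of a compatible symplectic form is joined to it by cohomologous symplectic forms.
-/

set_option autoImplicit false

open scoped Manifold ContDiff

namespace Pool.Agent.Results.MP_bf98aa_gt.QuasiconformalMoser

open Pool.Agent.Work.MP_bf98aa_gt.St

theorem result (n : ℕ) (hn : 2 ≤ n) (M : Type) [TopologicalSpace M] [T2Space M] [CompactSpace M]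
    [ChartedSpace (Fin (2 * n) → ℝ) M] [IsManifold 𝓘(ℝ, Fin (2 * n) → ℝ) ∞ M]
    (g w₀ : Bil (Fin (2 * n) → ℝ) M) (hg : IsMetric g) (hw₀ : IsSymplectic w₀)
    (hp : IsPinched g 0 w₀) : ∃ e : ℝ, 0 < e ∧
    ∀ (c : ℝ) (w w₁ : Bil (Fin (2 * n) → ℝ) M), c ≠ 0 → IsSymplectic w → IsSymplectic w₁ →
    IsClose g e c w₁ w₀ → IsPinched g e w → Cohomologous w w₁ →
    ∃ H : ℝ → Bil (Fin (2 * n) → ℝ) M, SmoothFamily H ∧ H 0 = w ∧ H 1 = w₁ ∧
      ∀ t ∈ Set.Icc (0 : ℝ) 1, IsSymplectic (H t) ∧ Cohomologous (H t) w₁ := by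
  obtain ⟨k, rfl⟩ : ∃ k, n = k + 2 := ⟨n - 2, by omega⟩
  exact qc_moser k (by simp) hg hw₀ hp

end Pool.Agent.Results.MP_bf98aa_gt.QuasiconformalMoser
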