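import Pool.Agent.Work.MP_bf98aa_gt.Main

/-!
A homotopy class of nondegenerate forms on the torus that contains no symplectic form of small
distortion with respect to a flat metric.
-/

set_option autoImplicit false

open Matrix

namespace Pool.Agent.Results.MP_bf98aa_gt.SmallDistortionObstruction

open Pool.Agent.Work.MP_bf98aa_gt

theorem result (n : ℕ) (hn : 2 ≤ n) : ∃ e : ℝ, 0 < e ∧
    ∃ τ : (Fin n ⊕ Fin n → ℝ) → Matrix (Fin n ⊕ Fin n) (Fin n ⊕ Fin n) ℝ,
      SmoothForm τ ∧ NondegForm 1 τ ∧ (∀ x, τ x * τ x = -1) ∧ τ 0 = Matrix.J (Fin n) ℝ ∧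
      ∀ G : Matrix (Fin n ⊕ Fin n) (Fin n ⊕ Fin n) ℝ, G.PosDef →
      ∀ w, Symplectic 1 w → PinchedTo G e w → ¬Homotopic 1 τ w :=
  obstruction n hn

end Pool.Agent.Results.MP_bf98aa_gt.SmallDistortionObstruction
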