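import Pool.Agent.Work.MP_bf98aa_gt.Main

/-!
Symplectic forms of small distortion on flat tori deform to constant forms.
-/

set_option autoImplicit false

open Matrix
open scoped ContDiff

namespace Pool.Agent.Results.MP_bf98aa_gt.SmallDistortionRigidity

open Pool.Agent.Work.MP_bf98aa_gt

theorem result (n : ℕ) (hn : 2 ≤ n) : ∃ e : ℝ, 0 < e ∧
    ∀ L : Matrix (Fin (2 * n)) (Fin (2 * n)) ℝ, L.det ≠ 0 →
    ∀ w : (Fin (2 * n) → ℝ) → Matrix (Fin (2 * n)) (Fin (2 * n)) ℝ,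
    Symplectic L w → Pinched e w →
    ∃ H : ℝ → (Fin (2 * n) → ℝ) → Matrix (Fin (2 * n)) (Fin (2 * n)) ℝ,
      (∀ i j, ContDiff ℝ ∞ fun p : ℝ × (Fin (2 * n) → ℝ) => H p.1 p.2 i j) ∧
      H 0 = w ∧ (H 1 = fun _ => mean L w) ∧
      ∀ t ∈ Set.Icc (0 : ℝ) 1, Symplectic L (H t) ∧ mean L (H t) = mean L w ∧
        ∀ (A : Matrix (Fin (2 * n)) (Fin (2 * n)) ℝ) (c : Fin (2 * n) → ℝ),
          Aᵀ * A = 1 → Preserves A c w → Preserves A c (H t) := by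
  obtain ⟨k, rfl⟩ : ∃ k, n = k + 2 := ⟨n - 2, by omega⟩
  exact rigidity k (by simp)

end Pool.Agent.Results.MP_bf98aa_gt.SmallDistortionRigidity
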