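import Pool.Agent.Work.MP_bf98aa_gt.Cy.Final3

/-!
Infinitely many simply connected symplectic Calabi-Yau 6-manifolds with second Betti number one,
and the existence question on them for nondegenerate forms with trivial canonical bundle.
-/

set_option autoImplicit false

namespace Pool.Agent.Results.MP_bf98aa_gt.SymplecticCalabiYau

open Pool.Agent.Work.MP_bf98aa_gt.Th Pool.Agent.Work.MP_bf98aa_gt.Cy

theorem result : ∃ (X : ℕ → Mfd (Sp (Fin 3))) (η : ∀ k, Form (Sp (Fin 3)) (X k).M 2),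
    (∀ k, Q1CY 3 (X k).M ∧ (η k).Closed ∧ (η k).Nondeg ∧ Spans (η k) ∧ CalabiYau (η k) ∧
      UnitSphere (η k) ∧ BigDomain (η k) k) ∧ ∀ k l, k ≠ l → ¬(X k).Diffeo (X l) := by
  obtain ⟨M, _, _, _, _, _, _, η, h1, h2⟩ := cy_family
  exact ⟨fun k => ⟨M k⟩, η, fun k => ⟨Mfd.q1 ⟨M k⟩ (h1 k).1 (h1 k).2.1 (h1 k).2.2.1 (h1 k).2.2.2.1,
    h1 k⟩, fun k l h => not_nonempty_iff.2 (h2 k l h)⟩

end Pool.Agent.Results.MP_bf98aa_gt.SymplecticCalabiYau
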